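import Pool.Agent.Helper982_BV.Static

/-! Dynamic part: bars `v` present at the times `s v < t ≤ e v`; the bound for the number of pairs that
are adjacent at some time. -/

set_option autoImplicit false
set_option linter.unusedSectionVars false

open Finset

namespace Pool.Agent.Helper982_BV

variable {V : Type*} [Fintype V] [DecidableEq V]

/-- bars present at time `t` -/
def St (s e : V → ℕ) (t : ℕ) : Finset V := {v | s v < t ∧ t ≤ e v}

theorem mem_St {s e : V → ℕ} {t : ℕ} {v : V} : v ∈ St s e t ↔ s v < t ∧ t ≤ e v := by simp [St]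

/-- number of bars started before `t` -/
def nb (s : V → ℕ) (t : ℕ) : ℕ := #({v | s v < t} : Finset V)

theorem nb_succ_some {s : V → ℕ} (hs : Function.Injective s) {t : ℕ} {v : V} (hv : s v = t) :
    nb s (t + 1) = nb s t + 1 := by
  unfold nb
  have : ({v | s v < t + 1} : Finset V) = insert v ({v | s v < t} : Finset V) := by
    ext w
    simp only [mem_filter, mem_univ, true_and, mem_insert]
    constructor
    · intro h
      by_cases hw : s w = t
      · left; exact hs (hw.trans hv.symm)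
      · right; omega
    · rintro (h | h)
      · rw [h]; omega
      · omega
  rw [this, card_insert_of_notMem]
  simp [hv]

theorem nb_succ_none {s : V → ℕ} {t : ℕ} (h : ∀ v, s v ≠ t) : nb s (t + 1) = nb s t := by
  unfold nb
  congr 1
  ext w
  simp only [mem_filter, mem_univ, true_and]
  have := h w
  omega

section

variable {s e : V → ℕ} (hse : ∀ v, s v < e v)

include hse

theorem card_St (t : ℕ) : #(St s e t) + nb e t = nb s t := by
  unfold nb St
  rw [← card_union_of_disjoint]
  · congr 1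
    ext w
    simp only [mem_union, mem_filter, mem_univ, true_and]
    have := hse w
    omega
  · rw [disjoint_left]
    intro w h h'
    simp only [mem_filter, mem_univ, true_and] at h h'
    omega

theorem step_start {t : ℕ} {v : V} (hs : Function.Injective s) (hne : ∀ v w, s v ≠ e w)
    (hv : s v = t) : v ∉ St s e t ∧ St s e (t + 1) = insert v (St s e t) := by
  constructor
  · rw [mem_St]; omega
  · ext w
    rw [mem_insert, mem_St, mem_St]
    constructor
    · intro h
      by_cases hw : s w = t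
      · left; exact hs (hw.trans hv.symm)
      · right; omega
    · rintro (h | h)
      · rw [h]; have := hse v; omega
      · have := hne v w; omega

theorem step_end {t : ℕ} {v : V} (he : Function.Injective e) (hne : ∀ v w, s v ≠ e w)
    (hv : e v = t) : v ∈ St s e t ∧ St s e (t + 1) = (St s e t).erase v := by
  constructor
  · rw [mem_St]; have := hse v; omega
  · ext w
    rw [mem_erase, mem_St, mem_St]
    constructor
    · intro h
      have h1 := hne w v
      refine ⟨?_, by omega⟩
      intro hw; rw [hw] at h; omega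
    · rintro ⟨h, h1⟩
      have : e w ≠ t := fun h2 => h (he (h2.trans hv.symm))
      omega

theorem step_none {t : ℕ} (h1 : ∀ v, s v ≠ t) (h2 : ∀ v, e v ≠ t) :
    St s e (t + 1) = St s e t := by
  ext w
  rw [mem_St, mem_St]
  have := h1 w
  have := h2 w
  omega

end

/-- the pair of `v` and `z`, sorted -/
def mk (pos : V → ℤ) (v z : V) : V × V := if pos z < pos v then (z, v) else (v, z)

theorem mk_left {pos : V → ℤ} {u w : V} (h : pos u < pos w) : mk pos w u = (u, w) := by
  simp [mk, h]

theorem mk_right {pos : V → ℤ} {u w : V} (h : pos u < pos w) : mk pos u w = (u, w) := by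
  simp [mk, not_lt.2 h.le]

theorem card_pairs (pos : V → ℤ) (F : Finset V) (L : ℕ) (hF : #F = 2 * L) :
    #({p ∈ F ×ˢ F | pos p.1 < pos p.2}) ≤ L * (2 * L - 1) := by
  set P : Finset (V × V) := {p ∈ F ×ˢ F | pos p.1 < pos p.2} with hP
  have h1 : P ∪ P.image Prod.swap ⊆ F.offDiag := by
    intro p hp
    rw [mem_union, mem_image] at hp
    rw [mem_offDiag]
    rcases hp with hp | ⟨q, hq, rfl⟩
    · rw [hP, mem_filter, mem_product] at hp
      exact ⟨hp.1.1, hp.1.2, fun h => by rw [h] at hp; exact lt_irrefl _ hp.2⟩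
    · rw [hP, mem_filter, mem_product] at hq
      refine ⟨hq.1.2, hq.1.1, fun h => ?_⟩
      simp only [Prod.fst_swap, Prod.snd_swap] at h
      rw [h] at hq; exact lt_irrefl _ hq.2
  have h2 : Disjoint P (P.image Prod.swap) := by
    rw [disjoint_left]
    intro p hp hp'
    rw [mem_image] at hp'
    obtain ⟨q, hq, rfl⟩ := hp'
    rw [hP, mem_filter] at hp hq
    exact lt_asymm hp.2 hq.2
  have h3 := card_le_card h1
  rw [card_union_of_disjoint h2, card_image_of_injective _ Prod.swap_injective, offDiag_card, hF]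
    at h3
  have h4 : 2 * L * (2 * L) - 2 * L = 2 * (L * (2 * L - 1)) := by
    rw [show 2 * (L * (2 * L - 1)) = 2 * L * (2 * L - 1) by ring, Nat.mul_sub_one]
  omega

set_option maxHeartbeats 4000000 in
theorem comb (L : ℕ) (hL : 1 ≤ L) (pos : V → ℤ) (hpos : Function.Injective pos) (s e : V → ℕ)
    (hse : ∀ v, s v < e v) (hs : Function.Injective s) (he : Function.Injective e)
    (hne : ∀ v w, s v ≠ e w) (hn : 4 * L ≤ Fintype.card V) (E : Finset (V × V))
    (hE : ∀ p ∈ E, ∃ t, p ∈ Adj L pos (St s e t)) :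
    #E + L * (4 * L + 2) ≤ 3 * L * Fintype.card V := by
  classical
  set S := St s e with hS
  set n := Fintype.card V with hnd
  -- late pairs
  have hlate : ∀ (a : ℕ) (Q : Finset (V × V)), (∀ t, a < t → #(S t) ≤ 2 * L) →
      (∀ p ∈ Q, (∃ t, p ∈ Adj L pos (S t)) ∧ (a ≤ s p.1 ∨ a ≤ s p.2)) →
      #Q ≤ #({v | a ≤ s v} : Finset V) * (2 * L - 1) := by
    intro a Q ha hQ
    have h1 : Q ⊆ ({v | a ≤ s v} : Finset V).biUnion (fun v => (S (s v)).image (mk pos v)) := by
      rintro ⟨u, w⟩ hp
      obtain ⟨⟨t, ht⟩, hor⟩ := hQ _ hp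
      rw [mem_Adj] at ht
      obtain ⟨⟨hu, hw⟩, huw, -⟩ := ht
      rw [hS, mem_St] at hu hw
      simp only at hor
      rw [mem_biUnion]
      have hne' : s u ≠ s w := fun h => by
        rw [hs h] at huw; exact lt_irrefl _ huw
      rcases lt_or_gt_of_ne hne' with h | h
      · refine ⟨w, by simp only [mem_filter, mem_univ, true_and]; omega, ?_⟩
        rw [mem_image]
        refine ⟨u, ?_, mk_left huw⟩
        rw [hS, mem_St]; omega
      · refine ⟨u, by simp only [mem_filter, mem_univ, true_and]; omega, ?_⟩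
        rw [mem_image]
        refine ⟨w, ?_, mk_right huw⟩
        rw [hS, mem_St]; omega
    refine (card_le_card h1).trans (card_biUnion_le_card_mul _ _ _ ?_)
    intro v hv
    rw [mem_filter] at hv
    refine card_image_le.trans ?_
    have h2 := step_start hse hs hne (rfl : s v = s v)
    have h3 := ha (s v + 1) (by omega)
    rw [hS, h2.2, card_insert_of_notMem h2.1] at h3
    rw [hS]; omega
  by_cases hbig : ∃ t, 2 * L + 1 ≤ #(S t)
  swap
  · push Not at hbig
    have h1 := hlate 0 E (fun t _ => by have := hbig t; omega)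
      (fun p hp => ⟨hE p hp, Or.inl (Nat.zero_le _)⟩)
    have h2 : #({v | 0 ≤ s v} : Finset V) = n := by simp [hnd]
    rw [h2] at h1
    have h3 : n * (2 * L - 1) + n = n * (2 * L) := by
      rw [← Nat.mul_succ]; congr 1; omega
    nlinarith
  -- the last time with `2L+1` bars
  have hB : ∀ t, (∑ v, e v) < t → S t = ∅ := by
    intro t ht
    rw [hS]
    ext v
    rw [mem_St]
    have : e v ≤ ∑ v, e v := single_le_sum (f := e) (fun _ _ => Nat.zero_le _) (mem_univ v)
    simp only [notMem_empty, iff_false]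
    omega
  set B := ∑ v, e v with hBd
  have hbig' : ∃ t ≤ B, 2 * L + 1 ≤ #(S t) := by
    obtain ⟨t, ht⟩ := hbig
    refine ⟨t, ?_, ht⟩
    by_contra hcon
    rw [hB t (not_le.1 hcon), card_empty] at ht
    omega
  set σ := Nat.findGreatest (fun t => 2 * L + 1 ≤ #(S t)) B with hσ
  have hσ1 : 2 * L + 1 ≤ #(S σ) := by
    obtain ⟨t, htB, ht⟩ := hbig'
    exact Nat.findGreatest_spec (P := fun t => 2 * L + 1 ≤ #(S t)) htB ht
  have hσ2 : ∀ t, σ < t → #(S t) ≤ 2 * L := by
    intro t ht
    by_cases htB : t ≤ B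
    · have := Nat.findGreatest_is_greatest (P := fun t => 2 * L + 1 ≤ #(S t)) ht htB
      omega
    · rw [hB t (not_le.1 htB), card_empty]; omega
  have hstep : ∀ t, (∃ v, s v = t) ∨ (∃ v, e v = t) ∨ ((∀ v, s v ≠ t) ∧ (∀ v, e v ≠ t)) := by
    intro t
    by_cases h1 : ∃ v, s v = t
    · exact Or.inl h1
    · by_cases h2 : ∃ v, e v = t
      · exact Or.inr (Or.inl h2)
      · push Not at h1 h2
        exact Or.inr (Or.inr ⟨h1, h2⟩)
  have hdiff : ∀ t, #(S (t + 1)) ≤ #(S t) + 1 ∧ #(S t) ≤ #(S (t + 1)) + 1 := by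
    intro t
    rcases hstep t with ⟨v, hv⟩ | ⟨v, hv⟩ | ⟨h1, h2⟩
    · have := step_start hse hs hne hv
      rw [hS, this.2, card_insert_of_notMem this.1]; omega
    · have := step_end hse he hne hv
      rw [hS, this.2, card_erase_of_mem this.1]
      omega
    · rw [hS, step_none hse h1 h2]; omega
  have hσc : #(S σ) = 2 * L + 1 := by
    have h1 := hσ2 (σ + 1) (by omega)
    have h2 := (hdiff σ).2
    omega
  -- the first time with `2L` bars
  have hex : ∃ t, 2 * L ≤ #(S t) := ⟨σ, by omega⟩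
  set τ := Nat.find hex with hτ
  have hτ1 : 2 * L ≤ #(S τ) := Nat.find_spec hex
  have hτ2 : ∀ t, t < τ → #(S t) < 2 * L := fun t ht => not_le.1 (Nat.find_min hex ht)
  have hτσ : τ ≤ σ := Nat.find_min' hex (by omega)
  have hτc : #(S τ) = 2 * L := by
    have h0 : #(S 0) = 0 := by
      rw [card_eq_zero, hS]; ext v; rw [mem_St]; simp
    have hτ0 : τ ≠ 0 := by
      intro h; rw [h, h0] at hτ1; omega
    obtain ⟨m, hm⟩ := Nat.exists_eq_succ_of_ne_zero hτ0
    have h1 := hτ2 m (by omega)
    have h2 := (hdiff m).1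
    rw [← Nat.succ_eq_add_one, ← hm] at h2
    omega
  set F := S τ with hF
  -- middle
  set G : ℕ → Finset (V × V) := fun t =>
    (Icc τ t).biUnion (fun r => Adj L pos (S r)) \ Adj L pos (S τ) with hG
  have hmid : ∀ t, τ ≤ t → #(G t) + Phi L pos F (S t) + 2 * L * nb s τ + L * nb e τ ≤
      2 * L * nb s t + L * nb e t := by
    intro t ht
    induction t, ht using Nat.le_induction with
    | base =>
      have h1 : G τ = ∅ := by simp [hG]
      have h2 : Phi L pos F (S τ) = 0 := by simp [Phi, hF]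
      rw [h1, h2, card_empty]; omega
    | succ t ht ih =>
      have h1 : G (t + 1) ⊆ G t ∪ (Adj L pos (S (t + 1)) \ Adj L pos (S t)) := by
        intro p hp
        rw [hG] at hp
        simp only [mem_sdiff, mem_biUnion, mem_Icc] at hp
        obtain ⟨⟨r, hr, hpr⟩, hp2⟩ := hp
        rw [mem_union]
        by_cases hrt : ∃ r, (τ ≤ r ∧ r ≤ t) ∧ p ∈ Adj L pos (S r)
        · left
          obtain ⟨r, hr, hpr⟩ := hrt
          rw [hG]
          simp only [mem_sdiff, mem_biUnion, mem_Icc]
          exact ⟨⟨r, hr, hpr⟩, hp2⟩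
        · right
          push Not at hrt
          have hr' : r = t + 1 := by
            by_contra hcon
            exact hrt r ⟨hr.1, by omega⟩ hpr
          rw [hr'] at hpr
          exact mem_sdiff.2 ⟨hpr, hrt t ⟨ht, le_refl _⟩⟩
      have h2 : #(G (t + 1)) ≤ #(G t) + #(Adj L pos (S (t + 1)) \ Adj L pos (S t)) :=
        (card_le_card h1).trans (card_union_le _ _)
      rcases hstep t with ⟨v, hv⟩ | ⟨v, hv⟩ | ⟨h3, h4⟩
      · have h5 := step_start hse hs hne hv
        have h6 : v ∉ F := by rw [hF, hS, mem_St]; omega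
        have h7 := ins_step hpos L F (S t) v h5.1 h6
        rw [← h5.2, ← hS] at h7
        have h8 := nb_succ_some hs hv
        have h9 := nb_succ_none (s := e) (t := t) (fun w hw => hne v w (hv.trans hw.symm))
        rw [h8, h9]
        have h10 : 2 * L * (nb s t + 1) = 2 * L * nb s t + 2 * L := by ring
        omega
      · have h5 := step_end hse he hne hv
        have h7 := del_step hpos L F (S t) v h5.1
        rw [← h5.2, ← hS] at h7
        have h8 := nb_succ_some he hv
        have h9 := nb_succ_none (s := s) (t := t) (fun w hw => hne w v (hw.trans hv.symm))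
        rw [h8, h9]
        have h10 : L * (nb e t + 1) = L * nb e t + L := by ring
        omega
      · have h5 := step_none hse h3 h4
        rw [nb_succ_none h3, nb_succ_none h4]
        have h6 : S (t + 1) = S t := h5
        rw [h6, Finset.sdiff_self, card_empty] at h2
        rw [h6]
        omega
  -- splitting
  set P1 : V × V → Prop := fun p => ∃ t, t ≤ τ ∧ p ∈ Adj L pos (S t) with hP1
  set P2 : V × V → Prop := fun p => ∃ t, t ≤ σ ∧ p ∈ Adj L pos (S t) with hP2
  set PF : Finset (V × V) := {p ∈ F ×ˢ F | pos p.1 < pos p.2} with hPF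
  have hPFc := card_pairs pos F L hτc
  rw [← hPF] at hPFc
  have hcover : E ⊆ ((PF.filter P1 ∪ (E.filter P1 \ PF)) ∪ G σ) ∪ E.filter (fun p => ¬ P2 p) := by
    intro p hp
    by_cases h2 : P2 p
    · rw [mem_union]; left
      rw [mem_union]
      by_cases h1 : P1 p
      · left
        rw [mem_union]
        by_cases h3 : p ∈ PF
        · left; exact mem_filter.2 ⟨h3, h1⟩
        · right; exact mem_sdiff.2 ⟨mem_filter.2 ⟨hp, h1⟩, h3⟩
      · right
        obtain ⟨t, ht, hpt⟩ := h2
        rw [hG]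
        simp only [mem_sdiff, mem_biUnion, mem_Icc]
        refine ⟨⟨t, ⟨?_, ht⟩, hpt⟩, fun h => h1 ⟨τ, le_refl _, h⟩⟩
        by_contra hcon
        exact h1 ⟨t, by omega, hpt⟩
    · rw [mem_union]; right
      exact mem_filter.2 ⟨hp, h2⟩
  -- early pairs
  have hearly : #(E.filter P1 \ PF) ≤ nb e τ * (2 * L - 1) := by
    have h1 : E.filter P1 \ PF ⊆
        ({v | e v < τ} : Finset V).biUnion (fun v => (S (e v)).image (mk pos v)) := by
      rintro ⟨u, w⟩ hp
      rw [mem_sdiff, mem_filter] at hp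
      obtain ⟨⟨-, ⟨t, ht, hpt⟩⟩, hnPF⟩ := hp
      rw [mem_Adj] at hpt
      obtain ⟨⟨hu, hw⟩, huw, -⟩ := hpt
      have hnF : ¬ (u ∈ F ∧ w ∈ F) := by
        intro h
        apply hnPF
        rw [hPF, mem_filter, mem_product]
        exact ⟨h, huw⟩
      rw [hS, mem_St] at hu hw
      rw [hF, hS, mem_St, mem_St] at hnF
      rw [mem_biUnion]
      have hne' : e u ≠ e w := fun h => by
        rw [he h] at huw; exact lt_irrefl _ huw
      rcases lt_or_gt_of_ne hne' with h | h
      · refine ⟨u, by simp only [mem_filter, mem_univ, true_and]; omega, ?_⟩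
        rw [mem_image]
        refine ⟨w, ?_, mk_right huw⟩
        rw [hS, mem_St]; omega
      · refine ⟨w, by simp only [mem_filter, mem_univ, true_and]; omega, ?_⟩
        rw [mem_image]
        refine ⟨u, ?_, mk_left huw⟩
        rw [hS, mem_St]; omega
    refine (card_le_card h1).trans (card_biUnion_le_card_mul _ _ _ ?_)
    intro v hv
    rw [mem_filter] at hv
    refine card_image_le.trans ?_
    have := hτ2 (e v) hv.2
    omega
  -- pairs created after `σ`
  have hlast : E.filter (fun p => ¬ P2 p) ⊆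
      (({p ∈ S σ ×ˢ S σ | pos p.1 < pos p.2 ∧ L ≤ bt pos (S σ) p.1 p.2 ∧
        ¬ (p.1 ∈ F ∧ p.2 ∈ F)}) ∪ PF.filter (fun p => ¬ P1 p)) ∪
      (E.filter (fun p => ¬ P2 p)).filter (fun p => ¬ (p.1 ∈ S σ ∧ p.2 ∈ S σ)) := by
    rintro ⟨u, w⟩ hp
    have hp0 := hp
    rw [mem_filter] at hp
    obtain ⟨hpE, hpn⟩ := hp
    obtain ⟨t, ht⟩ := hE _ hpE
    rw [mem_Adj] at ht
    rw [mem_union, mem_union]
    by_cases hb : u ∈ S σ ∧ w ∈ S σ
    · left
      by_cases hFF : u ∈ F ∧ w ∈ F
      · right
        rw [mem_filter, hPF, mem_filter, mem_product]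
        refine ⟨⟨hFF, ht.2.1⟩, ?_⟩
        rintro ⟨t', ht', h⟩
        exact hpn ⟨t', ht'.trans hτσ, h⟩
      · left
        rw [mem_filter, mem_product]
        refine ⟨hb, ht.2.1, ?_, hFF⟩
        by_contra hcon
        exact hpn ⟨σ, le_refl _, mem_Adj.2 ⟨hb, ht.2.1, not_le.1 hcon⟩⟩
    · right
      exact mem_filter.2 ⟨hp0, hb⟩
  have hfar := far_le hpos L F (S σ) hσc
  have hlate' := hlate σ ((E.filter (fun p => ¬ P2 p)).filter
      (fun p => ¬ (p.1 ∈ S σ ∧ p.2 ∈ S σ))) hσ2 (by
    rintro ⟨u, w⟩ hp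
    rw [mem_filter, mem_filter] at hp
    obtain ⟨⟨hpE, hpn⟩, hns⟩ := hp
    obtain ⟨t, ht⟩ := hE _ hpE
    refine ⟨⟨t, ht⟩, ?_⟩
    have htσ : σ < t := by
      by_contra hcon
      exact hpn ⟨t, not_lt.1 hcon, ht⟩
    rw [mem_Adj] at ht
    obtain ⟨⟨hu, hw⟩, -, -⟩ := ht
    rw [hS, mem_St] at hu hw
    simp only [hS, mem_St] at hns
    show σ ≤ s u ∨ σ ≤ s w
    omega)
  have hsumF : #(PF.filter P1) + #(PF.filter (fun p => ¬ P1 p)) = #PF :=
    card_filter_add_card_filter_not _
  have hm := hmid σ hτσ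
  have hcτ := card_St hse τ
  have hcσ := card_St hse σ
  rw [← hS] at hcτ hcσ
  rw [hτc] at hcτ
  rw [hσc] at hcσ
  have hnl : nb s σ + #({v | σ ≤ s v} : Finset V) = n := by
    unfold nb
    rw [← card_union_of_disjoint]
    · rw [hnd, ← card_univ]
      congr 1
      ext v
      simp only [mem_union, mem_filter, mem_univ, true_and, iff_true]
      omega
    · rw [disjoint_left]
      intro v h h'
      simp only [mem_filter, mem_univ, true_and] at h h'
      omega
  have hEe : nb e τ ≤ nb e σ := by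
    unfold nb
    apply card_le_card
    intro v hv
    simp only [mem_filter, mem_univ, true_and] at hv ⊢
    omega
  have c1 := card_le_card hcover
  have c2 := card_union_le ((PF.filter P1 ∪ (E.filter P1 \ PF)) ∪ G σ)
    (E.filter (fun p => ¬ P2 p))
  have c3 := card_union_le (PF.filter P1 ∪ (E.filter P1 \ PF)) (G σ)
  have c4 := card_union_le (PF.filter P1) (E.filter P1 \ PF)
  have d1 := card_le_card hlast
  have d2 := card_union_le (({p ∈ S σ ×ˢ S σ | pos p.1 < pos p.2 ∧ L ≤ bt pos (S σ) p.1 p.2 ∧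
        ¬ (p.1 ∈ F ∧ p.2 ∈ F)}) ∪ PF.filter (fun p => ¬ P1 p))
      ((E.filter (fun p => ¬ P2 p)).filter (fun p => ¬ (p.1 ∈ S σ ∧ p.2 ∈ S σ)))
  have d3 := card_union_le ({p ∈ S σ ×ˢ S σ | pos p.1 < pos p.2 ∧ L ≤ bt pos (S σ) p.1 p.2 ∧
        ¬ (p.1 ∈ F ∧ p.2 ∈ F)}) (PF.filter (fun p => ¬ P1 p))
  obtain ⟨y, hy⟩ := Nat.exists_eq_add_of_le hEe
  set x := nb e τ with hx
  set l := #({v | σ ≤ s v} : Finset V) with hl
  obtain ⟨M, rfl⟩ : ∃ M, L = M + 1 := ⟨L - 1, by omega⟩
  have k1 : 2 * (M + 1) - 1 = 2 * M + 1 := by omega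
  rw [k1] at hearly hlate' hPFc
  have f1 : nb s σ = 2 * (M + 1) + 1 + (x + y) := by omega
  have f2 : nb s τ = 2 * (M + 1) + x := by omega
  have f3 : n = 2 * (M + 1) + 1 + (x + y) + l := by omega
  rw [f1, f2, hy] at hm
  rw [f3]
  have g1 : #E ≤ (M + 1) * (2 * M + 1) + x * (2 * M + 1) + l * (2 * M + 1) +
      (#(G σ) + Phi (M + 1) pos F (S σ)) := by omega
  nlinarith

end Pool.Agent.Helper982_BV
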