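import Mathlib

/-! Bar visibility graphs: definitions. -/

set_option autoImplicit false

open Set

namespace Pool.Agent.Helper982_BV

/-- `s` is a bar: a closed horizontal segment in the plane -/
def IsBar (s : Set (ℝ × ℝ)) : Prop := ∃ a b c : ℝ, a < b ∧ s = Icc a b ×ˢ {c}

/-- There is a non-degenerate axis-parallel rectangle `[x₁, x₂] × [y₁, y₂]` with one horizontal side
contained in `b u` and the other contained in `b v` that meets at most `k` bars other than `b u` and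
`b v`. -/
def Sees {V : Type} (k : ℕ) (b : V → Set (ℝ × ℝ)) (u v : V) : Prop :=
  ∃ x₁ x₂ y₁ y₂ : ℝ, x₁ < x₂ ∧ y₁ < y₂ ∧
    ((Icc x₁ x₂ ×ˢ {y₁} ⊆ b u ∧ Icc x₁ x₂ ×ˢ {y₂} ⊆ b v) ∨
      (Icc x₁ x₂ ×ˢ {y₁} ⊆ b v ∧ Icc x₁ x₂ ×ˢ {y₂} ⊆ b u)) ∧
    {w | w ≠ u ∧ w ≠ v ∧ (b w ∩ (Icc x₁ x₂ ×ˢ Icc y₁ y₂)).Nonempty}.ncard ≤ k

/-- `G` is a bar `k`-visibility graph: it has a bar `k`-visibility representation. -/
def IsBarVisibilityGraph {V : Type} (k : ℕ) (G : SimpleGraph V) : Prop :=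
  ∃ b : V → Set (ℝ × ℝ), (∀ v, IsBar (b v)) ∧ (∀ u v, u ≠ v → Disjoint (b u) (b v)) ∧
    ∀ u v, u ≠ v → (G.Adj u v ↔ Sees k b u v)

end Pool.Agent.Helper982_BV
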