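import Pool.Agent.Helper982_BV.Defs

/-! The construction. -/

set_option autoImplicit false

open Finset

namespace Pool.Agent.Helper982_BV

theorem Sees.symm {V : Type} {k : ℕ} {b : V → Set (ℝ × ℝ)} {u v : V} (h : Sees k b u v) :
    Sees k b v u := by
  obtain ⟨x₁, x₂, y₁, y₂, hx, hy, hor, hc⟩ := h
  refine ⟨x₁, x₂, y₁, y₂, hx, hy, hor.symm, ?_⟩
  have : {w | w ≠ v ∧ w ≠ u ∧ (b w ∩ (Set.Icc x₁ x₂ ×ˢ Set.Icc y₁ y₂)).Nonempty} =
      {w | w ≠ u ∧ w ≠ v ∧ (b w ∩ (Set.Icc x₁ x₂ ×ˢ Set.Icc y₁ y₂)).Nonempty} := by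
    ext w; simp only [Set.mem_ofPred_eq]; tauto
  rw [this]; exact hc

/-- the bar `[-f v, g v] × {v}` -/
def br (f g : ℕ → ℕ) {m : ℕ} (v : Fin m) : Set (ℝ × ℝ) :=
  Set.Icc (-(f v : ℝ)) (g v) ×ˢ {((v : ℕ) : ℝ)}

theorem sees_left (f g : ℕ → ℕ) (k : ℕ) {m : ℕ} (p q : Fin m) (hpq : p < q) (t : ℕ)
    (hp : t + 1 ≤ f p) (hq : t + 1 ≤ f q)
    (hc : #({w | p < w ∧ w < q ∧ t + 1 ≤ f w} : Finset (Fin m)) ≤ k) :
    Sees k (br f g) p q := by
  have hpq' : ((p : ℕ) : ℝ) < ((q : ℕ) : ℝ) := by exact_mod_cast hpq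
  have hsub : ∀ w : Fin m, t + 1 ≤ f w →
      Set.Icc (-((t : ℝ) + 3 / 4)) (-((t : ℝ) + 1 / 4)) ×ˢ {((w : ℕ) : ℝ)} ⊆ br f g w := by
    rintro w hw ⟨x, y⟩ ⟨⟨h1, h2⟩, h3⟩
    have hw' : ((t : ℝ) + 1) ≤ (f w : ℝ) := by exact_mod_cast hw
    have hg : (0 : ℝ) ≤ (g w : ℝ) := Nat.cast_nonneg _
    have ht : (0 : ℝ) ≤ (t : ℝ) := Nat.cast_nonneg _
    simp only at h1 h2
    refine ⟨⟨?_, ?_⟩, h3⟩
    · show -(f w : ℝ) ≤ x
      linarith
    · show x ≤ (g w : ℝ)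
      linarith
  refine ⟨-((t : ℝ) + 3 / 4), -((t : ℝ) + 1 / 4), (p : ℕ), (q : ℕ), by linarith, hpq',
    Or.inl ⟨hsub p hp, hsub q hq⟩, ?_⟩
  refine le_trans ?_ hc
  rw [← Set.ncard_coe_finset]
  apply Set.ncard_le_ncard _ (Finset.finite_toSet _)
  rintro w ⟨hwp, hwq, ⟨⟨x, y⟩, ⟨⟨h1, h2⟩, h3⟩, ⟨⟨h4, h5⟩, ⟨h6, h7⟩⟩⟩⟩
  simp only [Set.mem_singleton_iff] at h1 h2 h3 h4 h5 h6 h7
  rw [h3] at h6 h7
  have e1 : (p : ℕ) ≤ (w : ℕ) := by exact_mod_cast h6
  have e2 : (w : ℕ) ≤ (q : ℕ) := by exact_mod_cast h7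
  have e3 : (p : ℕ) ≠ (w : ℕ) := fun h => hwp (Fin.ext h.symm)
  have e4 : (w : ℕ) ≠ (q : ℕ) := fun h => hwq (Fin.ext h)
  have e5 : (t : ℝ) < (f w : ℝ) := by linarith
  have e6 : t < f w := by exact_mod_cast e5
  rw [mem_coe, mem_filter]
  refine ⟨mem_univ _, ?_, ?_, by omega⟩
  · rw [Fin.lt_def]; omega
  · rw [Fin.lt_def]; omega

theorem sees_right (f g : ℕ → ℕ) (k : ℕ) {m : ℕ} (p q : Fin m) (hpq : p < q) (t : ℕ)
    (hp : t + 1 ≤ g p) (hq : t + 1 ≤ g q)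
    (hc : #({w | p < w ∧ w < q ∧ t + 1 ≤ g w} : Finset (Fin m)) ≤ k) :
    Sees k (br f g) p q := by
  have hpq' : ((p : ℕ) : ℝ) < ((q : ℕ) : ℝ) := by exact_mod_cast hpq
  have hsub : ∀ w : Fin m, t + 1 ≤ g w →
      Set.Icc ((t : ℝ) + 1 / 4) ((t : ℝ) + 3 / 4) ×ˢ {((w : ℕ) : ℝ)} ⊆ br f g w := by
    rintro w hw ⟨x, y⟩ ⟨⟨h1, h2⟩, h3⟩
    have hw' : ((t : ℝ) + 1) ≤ (g w : ℝ) := by exact_mod_cast hw
    have hg : (0 : ℝ) ≤ (f w : ℝ) := Nat.cast_nonneg _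
    have ht : (0 : ℝ) ≤ (t : ℝ) := Nat.cast_nonneg _
    simp only at h1 h2
    refine ⟨⟨?_, ?_⟩, h3⟩
    · show -(f w : ℝ) ≤ x
      linarith
    · show x ≤ (g w : ℝ)
      linarith
  refine ⟨(t : ℝ) + 1 / 4, (t : ℝ) + 3 / 4, (p : ℕ), (q : ℕ), by linarith, hpq',
    Or.inl ⟨hsub p hp, hsub q hq⟩, ?_⟩
  refine le_trans ?_ hc
  rw [← Set.ncard_coe_finset]
  apply Set.ncard_le_ncard _ (Finset.finite_toSet _)
  rintro w ⟨hwp, hwq, ⟨⟨x, y⟩, ⟨⟨h1, h2⟩, h3⟩, ⟨⟨h4, h5⟩, ⟨h6, h7⟩⟩⟩⟩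
  simp only [Set.mem_singleton_iff] at h1 h2 h3 h4 h5 h6 h7
  rw [h3] at h6 h7
  have e1 : (p : ℕ) ≤ (w : ℕ) := by exact_mod_cast h6
  have e2 : (w : ℕ) ≤ (q : ℕ) := by exact_mod_cast h7
  have e3 : (p : ℕ) ≠ (w : ℕ) := fun h => hwp (Fin.ext h.symm)
  have e4 : (w : ℕ) ≠ (q : ℕ) := fun h => hwq (Fin.ext h)
  have e5 : (t : ℝ) < (g w : ℝ) := by linarith
  have e6 : t < g w := by exact_mod_cast e5
  rw [mem_coe, mem_filter]
  refine ⟨mem_univ _, ?_, ?_, by omega⟩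
  · rw [Fin.lt_def]; omega
  · rw [Fin.lt_def]; omega

theorem card_fin_le {m : ℕ} (P : Fin m → Prop) [DecidablePred P] (A B : ℕ)
    (h : ∀ w, P w → A ≤ (w : ℕ) ∧ (w : ℕ) < B) : #({w | P w} : Finset (Fin m)) ≤ B - A := by
  rw [← Nat.card_Ico]
  apply card_le_card_of_injOn (fun w : Fin m => (w : ℕ))
  · intro w hw
    rw [mem_coe, mem_filter] at hw
    rw [mem_coe, mem_Ico]
    exact h w hw.2
  · intro u _ w _ h
    exact Fin.ext h

/-- length to the left -/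
def d1 (L N p : ℕ) : ℕ := if p < L then N else if p < 2 * L then 2 * L - p else p - L + 1

/-- length to the right -/
def d2 (L N p : ℕ) : ℕ := if p < L then L - p else if p < N - L then N - p else N

theorem sees_good (k N m : ℕ) (hm : m ≤ N) (hN : 4 * (k + 1) ≤ N) (p q : Fin m) (hpq : p < q)
    (hgood : ¬ (k + 1 ≤ (p : ℕ) ∧ (q : ℕ) < N - (k + 1) ∧ 3 * (k + 1) ≤ (q : ℕ) ∧
      (p : ℕ) + (k + 1) < (q : ℕ))) :
    Sees k (br (d1 (k + 1) N) (d2 (k + 1) N)) p q := by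
  have hpq' : (p : ℕ) < (q : ℕ) := hpq
  have hqm : (q : ℕ) < m := q.2
  have hd1 : ∀ w : ℕ, w < m → 1 ≤ d1 (k + 1) N w := by
    intro w hw; unfold d1; split_ifs <;> omega
  by_cases h1 : (q : ℕ) ≤ (p : ℕ) + (k + 1)
  · apply sees_left _ _ k p q hpq 0 (hd1 p p.2) (hd1 q q.2)
    refine (card_fin_le _ ((p : ℕ) + 1) q ?_).trans (by omega)
    rintro w ⟨h2, h3, -⟩
    rw [Fin.lt_def] at h2 h3
    omega
  · by_cases h2 : (p : ℕ) < k + 1
    · by_cases h3 : 2 * (k + 1) ≤ (q : ℕ)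
      · apply sees_left _ _ k p q hpq ((q : ℕ) - (k + 1))
        · unfold d1; split_ifs <;> omega
        · unfold d1; split_ifs <;> omega
        · refine (card_fin_le _ ((p : ℕ) + 1) (k + 1) ?_).trans (by omega)
          rintro w ⟨h4, h5, h6⟩
          rw [Fin.lt_def] at h4 h5
          unfold d1 at h6
          split_ifs at h6 <;> omega
      · apply sees_right _ _ k p q hpq ((k + 1) - p - 1)
        · unfold d2; split_ifs <;> omega
        · unfold d2; split_ifs <;> omega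
        · refine (card_fin_le _ (k + 1) q ?_).trans (by omega)
          rintro w ⟨h4, h5, h6⟩
          rw [Fin.lt_def] at h4 h5
          unfold d2 at h6
          split_ifs at h6 <;> omega
    · by_cases h3 : N - (k + 1) ≤ (q : ℕ)
      · apply sees_right _ _ k p q hpq (N - p - 1)
        · unfold d2; split_ifs <;> omega
        · unfold d2; split_ifs <;> omega
        · refine (card_fin_le _ (N - (k + 1)) q ?_).trans (by omega)
          rintro w ⟨h4, h5, h6⟩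
          rw [Fin.lt_def] at h4 h5
          unfold d2 at h6
          split_ifs at h6 <;> omega
      · apply sees_left _ _ k p q hpq (2 * (k + 1) - p - 1)
        · unfold d1; split_ifs <;> omega
        · unfold d1; split_ifs <;> omega
        · refine (card_fin_le _ (2 * (k + 1)) q ?_).trans (by omega)
          rintro w ⟨h4, h5, h6⟩
          rw [Fin.lt_def] at h4 h5
          unfold d1 at h6
          split_ifs at h6 <;> omega

theorem lower (k N m : ℕ) (hm : m ≤ N) (hN : 4 * (k + 1) ≤ N) :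
    ∃ G : SimpleGraph (Fin m), IsBarVisibilityGraph k G ∧
      m.choose 2 ≤ G.edgeSet.ncard + ∑ j ∈ range (N - 4 * (k + 1)), ((k + 1) + j) := by
  classical
  set b : Fin m → Set (ℝ × ℝ) := br (d1 (k + 1) N) (d2 (k + 1) N) with hb
  let G : SimpleGraph (Fin m) :=
    { Adj := fun u v => u ≠ v ∧ Sees k b u v
      symm := ⟨fun u v h => ⟨h.1.symm, h.2.symm⟩⟩
      loopless := ⟨fun u h => h.1 rfl⟩ }
  refine ⟨G, ⟨b, ?_, ?_, ?_⟩, ?_⟩
  · intro v
    refine ⟨-(d1 (k + 1) N v : ℝ), d2 (k + 1) N v, (v : ℕ), ?_, rfl⟩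
    have h1 : 1 ≤ d1 (k + 1) N v := by unfold d1; split_ifs <;> omega
    have h1' : (1 : ℝ) ≤ (d1 (k + 1) N v : ℝ) := by exact_mod_cast h1
    have h2 : (0 : ℝ) ≤ (d2 (k + 1) N v : ℝ) := Nat.cast_nonneg _
    linarith
  · intro u v huv
    rw [Set.disjoint_left]
    rintro ⟨x, y⟩ ⟨-, h1⟩ ⟨-, h2⟩
    simp only [Set.mem_singleton_iff] at h1 h2
    rw [h1] at h2
    exact huv (Fin.ext (by exact_mod_cast h2))
  · intro u v huv
    exact ⟨fun h => h.2, fun h => ⟨huv, h⟩⟩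
  · set Bad : Finset (Fin m × Fin m) := {p | k + 1 ≤ (p.1 : ℕ) ∧ (p.2 : ℕ) < N - (k + 1) ∧
      3 * (k + 1) ≤ (p.2 : ℕ) ∧ (p.1 : ℕ) + (k + 1) < (p.2 : ℕ)} with hBad
    have h1 : (⊤ : SimpleGraph (Fin m)).edgeSet ⊆ G.edgeSet ∪
        ((Bad.image (fun p => s(p.1, p.2)) : Finset (Sym2 (Fin m))) : Set (Sym2 (Fin m))) := by
      intro z hz
      induction z using Sym2.ind with
      | _ u v =>
        rw [SimpleGraph.mem_edgeSet, SimpleGraph.top_adj] at hz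
        have key : ∀ u v : Fin m, u < v → s(u, v) ∈ G.edgeSet ∪
            ((Bad.image (fun p => s(p.1, p.2)) : Finset (Sym2 (Fin m))) : Set (Sym2 (Fin m))) := by
          intro u v huv
          by_cases hbad : (k + 1 ≤ (u : ℕ) ∧ (v : ℕ) < N - (k + 1) ∧
              3 * (k + 1) ≤ (v : ℕ) ∧ (u : ℕ) + (k + 1) < (v : ℕ))
          · right
            rw [mem_coe, mem_image]
            exact ⟨(u, v), by rw [hBad, mem_filter]; exact ⟨mem_univ _, hbad⟩, rfl⟩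
          · left
            rw [SimpleGraph.mem_edgeSet]
            exact ⟨huv.ne, sees_good k N m hm hN u v huv hbad⟩
        rcases lt_or_gt_of_ne hz with h | h
        · exact key u v h
        · rw [Sym2.eq_swap]; exact key v u h
    have h2 : #Bad ≤ ∑ j ∈ range (N - 4 * (k + 1)), ((k + 1) + j) := by
      have h3 : #Bad ≤ #((range (N - 4 * (k + 1))).sigma (fun j => range ((k + 1) + j))) := by
        apply card_le_card_of_injOn
          (fun p => (⟨(p.2 : ℕ) - 3 * (k + 1), (p.1 : ℕ) - (k + 1)⟩ : (_ : ℕ) × ℕ))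
        · rintro ⟨u, v⟩ hp
          rw [mem_coe, hBad, mem_filter] at hp
          simp only at hp
          rw [mem_coe, mem_sigma, mem_range, mem_range]
          simp only
          omega
        · rintro ⟨u, v⟩ hp ⟨u', v'⟩ hp' h
          rw [mem_coe, hBad, mem_filter] at hp hp'
          simp only [Sigma.mk.injEq, heq_eq_eq] at hp hp' h
          rw [Prod.mk.injEq]
          constructor
          · apply Fin.ext; omega
          · apply Fin.ext; omega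
      rw [card_sigma] at h3
      simpa using h3
    have h4 : (⊤ : SimpleGraph (Fin m)).edgeSet.ncard = m.choose 2 := by
      rw [← SimpleGraph.coe_edgeFinset, Set.ncard_coe_finset,
        SimpleGraph.card_edgeFinset_top_eq_card_choose_two, Fintype.card_fin]
    rw [← h4]
    refine (Set.ncard_le_ncard h1 (Set.toFinite _)).trans ((Set.ncard_union_le _ _).trans ?_)
    apply add_le_add (le_refl _)
    rw [Set.ncard_coe_finset]
    exact card_image_le.trans h2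

end Pool.Agent.Helper982_BV
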