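import Pool.Agent.Helper982_BV.Upper
import Pool.Agent.Helper982_BV.Lower

/-! Assembly. -/

set_option autoImplicit false

open Finset

namespace Pool.Agent.Helper982_BV

theorem small (k n : ℕ) (hn : n ≤ 4 * k + 4) :
    ∃ G : SimpleGraph (Fin n), IsBarVisibilityGraph k G ∧ G.edgeSet.ncard = n.choose 2 := by
  classical
  obtain ⟨G, hG, h⟩ := lower k (4 * (k + 1)) n (by omega) (le_refl _)
  refine ⟨G, hG, le_antisymm ?_ ?_⟩
  · rw [← SimpleGraph.coe_edgeFinset, Set.ncard_coe_finset]
    have := SimpleGraph.card_edgeFinset_le_card_choose_two (G := G)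
    rwa [Fintype.card_fin] at this
  · simpa using h

theorem le_choose (n : ℕ) (G : SimpleGraph (Fin n)) : G.edgeSet.ncard ≤ n.choose 2 := by
  classical
  rw [← SimpleGraph.coe_edgeFinset, Set.ncard_coe_finset]
  have := SimpleGraph.card_edgeFinset_le_card_choose_two (G := G)
  rwa [Fintype.card_fin] at this

theorem arith (k n : ℕ) (hn : 4 * k + 4 ≤ n) :
    (k + 1) * (3 * n - 4 * k - 6) + (k + 1) * (4 * (k + 1) + 2) = 3 * (k + 1) * n := by
  rw [← Nat.mul_add]
  have : 3 * n - 4 * k - 6 + (4 * (k + 1) + 2) = 3 * n := by omega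
  rw [this]; ring

theorem large (k n : ℕ) (hn : 4 * k + 4 ≤ n) :
    ∃ G : SimpleGraph (Fin n), IsBarVisibilityGraph k G ∧
      G.edgeSet.ncard = (k + 1) * (3 * n - 4 * k - 6) := by
  obtain ⟨G, hG, h⟩ := lower k n n (le_refl _) (by omega)
  refine ⟨G, hG, ?_⟩
  have h1 := upper k n hn G hG
  have h2 := arith k n hn
  obtain ⟨r, rfl⟩ : ∃ r, n = 4 * (k + 1) + r := ⟨n - 4 * (k + 1), by omega⟩
  have h3 : 4 * (k + 1) + r - 4 * (k + 1) = r := by omega
  rw [h3] at h
  have h4 : 2 * (∑ j ∈ range r, ((k + 1) + j)) + r = 2 * r * (k + 1) + r * r := by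
    rw [sum_add_distrib, sum_const, card_range, smul_eq_mul, mul_add]
    have := sum_range_id_mul_two r
    rcases Nat.eq_zero_or_pos r with h0 | h0
    · subst h0; simp
    · have e1 : r * (r - 1) + r = r * r := by
        rw [← Nat.mul_succ]; congr 1; omega
      nlinarith
  have h5 : 2 * (4 * (k + 1) + r).choose 2 + (4 * (k + 1) + r) =
      (4 * (k + 1) + r) * (4 * (k + 1) + r) := by
    have e1 := Nat.triangle_succ (4 * (k + 1) + r)
    have e2 := Nat.choose_two_right (4 * (k + 1) + r)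
    have e3 : 2 * ((4 * (k + 1) + r) * (4 * (k + 1) + r - 1) / 2) =
        (4 * (k + 1) + r) * (4 * (k + 1) + r - 1) := by
      apply Nat.mul_div_cancel'
      exact (Nat.even_mul_pred_self _).two_dvd
    rw [e2, e3, ← Nat.mul_succ]; congr 1; omega
  apply le_antisymm
  · omega
  · nlinarith

end Pool.Agent.Helper982_BV
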