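import Mathlib

/-! Static part: a finite set `X` of bars on a line, ordered by `pos`; insertion and deletion of one
bar. -/

set_option autoImplicit false

set_option linter.unusedSectionVars false

open Finset

namespace Pool.Agent.Helper982_BV

variable {V : Type*} [DecidableEq V]

/-- number of elements of `X` with smaller position -/
def up (pos : V → ℤ) (X : Finset V) (u : V) : ℕ := #{z ∈ X | pos z < pos u}

/-- number of elements of `X` with larger position -/
def dn (pos : V → ℤ) (X : Finset V) (u : V) : ℕ := #{z ∈ X | pos u < pos z}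

/-- number of elements of `X` strictly between -/
def bt (pos : V → ℤ) (X : Finset V) (u w : V) : ℕ := #{z ∈ X | pos u < pos z ∧ pos z < pos w}

/-- the pairs in `X` with fewer than `L` elements between them -/
def Adj (L : ℕ) (pos : V → ℤ) (X : Finset V) : Finset (V × V) :=
  {p ∈ X ×ˢ X | pos p.1 < pos p.2 ∧ bt pos X p.1 p.2 < L}

/-- the potential -/
def Phi (L : ℕ) (pos : V → ℤ) (F X : Finset V) : ℕ :=
  ∑ z ∈ X \ F, ((L - up pos X z) + (L - dn pos X z))

variable {pos : V → ℤ}

theorem dn_lt_card (X : Finset V) {u : V} (hu : u ∈ X) : dn pos X u < #X := by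
  apply Finset.card_lt_card
  rw [Finset.ssubset_iff_of_subset (Finset.filter_subset _ _)]
  exact ⟨u, hu, by simp⟩

theorem up_lt_card (X : Finset V) {u : V} (hu : u ∈ X) : up pos X u < #X := by
  apply Finset.card_lt_card
  rw [Finset.ssubset_iff_of_subset (Finset.filter_subset _ _)]
  exact ⟨u, hu, by simp⟩

theorem dn_inj (hpos : Function.Injective pos) (X : Finset V) {u w : V} (hu : u ∈ X) (hw : w ∈ X)
    (h : dn pos X u = dn pos X w) : u = w := by
  have key : ∀ u w : V, w ∈ X → pos u < pos w → dn pos X w < dn pos X u := by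
    intro u w hw huw
    apply Finset.card_lt_card
    rw [Finset.ssubset_iff_of_subset]
    · exact ⟨w, by simp [hw, huw], by simp⟩
    · intro z hz
      simp only [mem_filter] at hz ⊢
      exact ⟨hz.1, huw.trans hz.2⟩
  rcases lt_trichotomy (pos u) (pos w) with h1 | h1 | h1
  · have := key u w hw h1; omega
  · exact hpos h1
  · have := key w u hu h1; omega

theorem up_inj (hpos : Function.Injective pos) (X : Finset V) {u w : V} (hu : u ∈ X) (hw : w ∈ X)
    (h : up pos X u = up pos X w) : u = w := by
  have key : ∀ u w : V, u ∈ X → pos u < pos w → up pos X u < up pos X w := by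
    intro u w hu huw
    apply Finset.card_lt_card
    rw [Finset.ssubset_iff_of_subset]
    · exact ⟨u, by simp [hu, huw], by simp⟩
    · intro z hz
      simp only [mem_filter] at hz ⊢
      exact ⟨hz.1, hz.2.trans huw⟩
  rcases lt_trichotomy (pos u) (pos w) with h1 | h1 | h1
  · have := key u w hu h1; omega
  · exact hpos h1
  · have := key w u hw h1; omega

theorem card_dn (hpos : Function.Injective pos) (X : Finset V) (P : V → Prop) [DecidablePred P]
    (K : Finset ℕ) (hP : ∀ u ∈ X, P u → dn pos X u ∈ K) : #{u ∈ X | P u} ≤ #K := by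
  apply Finset.card_le_card_of_injOn (dn pos X)
  · intro u hu
    have hu' := Finset.mem_filter.1 (Finset.mem_coe.1 hu)
    exact hP u hu'.1 hu'.2
  · intro u hu w hw h
    have hu' := Finset.mem_filter.1 (Finset.mem_coe.1 hu)
    have hw' := Finset.mem_filter.1 (Finset.mem_coe.1 hw)
    exact dn_inj hpos X hu'.1 hw'.1 h

theorem card_up (hpos : Function.Injective pos) (X : Finset V) (P : V → Prop) [DecidablePred P]
    (K : Finset ℕ) (hP : ∀ u ∈ X, P u → up pos X u ∈ K) : #{u ∈ X | P u} ≤ #K := by
  apply Finset.card_le_card_of_injOn (up pos X)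
  · intro u hu
    have hu' := Finset.mem_filter.1 (Finset.mem_coe.1 hu)
    exact hP u hu'.1 hu'.2
  · intro u hu w hw h
    have hu' := Finset.mem_filter.1 (Finset.mem_coe.1 hu)
    have hw' := Finset.mem_filter.1 (Finset.mem_coe.1 hw)
    exact up_inj hpos X hu'.1 hw'.1 h

theorem mem_Adj {L : ℕ} {X : Finset V} {u w : V} :
    (u, w) ∈ Adj L pos X ↔ (u ∈ X ∧ w ∈ X) ∧ pos u < pos w ∧ bt pos X u w < L := by
  simp [Adj, mem_filter, mem_product]

theorem bt_mono {X Y : Finset V} (h : X ⊆ Y) (u w : V) : bt pos X u w ≤ bt pos Y u w :=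
  Finset.card_le_card (Finset.filter_subset_filter _ h)

theorem up_mono {X Y : Finset V} (h : X ⊆ Y) (u : V) : up pos X u ≤ up pos Y u :=
  Finset.card_le_card (Finset.filter_subset_filter _ h)

theorem dn_mono {X Y : Finset V} (h : X ⊆ Y) (u : V) : dn pos X u ≤ dn pos Y u :=
  Finset.card_le_card (Finset.filter_subset_filter _ h)

/-- insertion of `v` -/
theorem ins_step (hpos : Function.Injective pos) (L : ℕ) (F X : Finset V) (v : V) (hv : v ∉ X)
    (hvF : v ∉ F) :
    #(Adj L pos (insert v X) \ Adj L pos X) + Phi L pos F (insert v X) ≤ Phi L pos F X + 2 * L := by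
  classical
  set Xu : Finset V := {z ∈ X | pos z < pos v} with hXu
  set Xd : Finset V := {z ∈ X | pos v < pos z} with hXd
  have h1 : Adj L pos (insert v X) \ Adj L pos X ⊆
      ({u ∈ Xu | dn pos Xu u < L}).image (fun u => (u, v)) ∪
      ({w ∈ Xd | up pos Xd w < L}).image (fun w => (v, w)) := by
    rintro ⟨u, w⟩ h
    rw [mem_sdiff, mem_Adj, mem_Adj] at h
    obtain ⟨⟨⟨hu, hw⟩, huw, hb⟩, hn⟩ := h
    rw [mem_union, mem_image, mem_image]
    by_cases hwv : w = v
    · left
      subst hwv
      have huX : u ∈ X := by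
        rcases mem_insert.1 hu with h | h
        · exact absurd huw (by rw [h]; exact lt_irrefl _)
        · exact h
      refine ⟨u, ?_, rfl⟩
      rw [mem_filter, hXu, mem_filter]
      refine ⟨⟨huX, huw⟩, ?_⟩
      refine lt_of_le_of_lt ?_ hb
      apply Finset.card_le_card
      intro z hz
      simp only [mem_filter, mem_insert] at hz ⊢
      exact ⟨Or.inr hz.1.1, hz.2, hz.1.2⟩
    · by_cases huv : u = v
      · right
        subst huv
        have hwX : w ∈ X := by
          rcases mem_insert.1 hw with h | h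
          · exact absurd h hwv
          · exact h
        refine ⟨w, ?_, rfl⟩
        rw [mem_filter, hXd, mem_filter]
        refine ⟨⟨hwX, huw⟩, ?_⟩
        refine lt_of_le_of_lt ?_ hb
        apply Finset.card_le_card
        intro z hz
        simp only [mem_filter, mem_insert] at hz ⊢
        exact ⟨Or.inr hz.1.1, hz.1.2, hz.2⟩
      · exfalso
        apply hn
        refine ⟨⟨mem_of_mem_insert_of_ne hu huv, mem_of_mem_insert_of_ne hw hwv⟩, huw, ?_⟩
        exact lt_of_le_of_lt (bt_mono (subset_insert v X) u w) hb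
  have h2 : #({u ∈ Xu | dn pos Xu u < L}) ≤ L := by
    have := card_dn hpos Xu (fun u => dn pos Xu u < L) (range L) (fun u _ h => mem_range.2 h)
    rwa [card_range] at this
  have h2' : #({u ∈ Xu | dn pos Xu u < L}) ≤ #Xu := card_filter_le _ _
  have h3 : #({w ∈ Xd | up pos Xd w < L}) ≤ L := by
    have := card_up hpos Xd (fun u => up pos Xd u < L) (range L) (fun u _ h => mem_range.2 h)
    rwa [card_range] at this
  have h3' : #({w ∈ Xd | up pos Xd w < L}) ≤ #Xd := card_filter_le _ _
  have h4 : #(Adj L pos (insert v X) \ Adj L pos X) ≤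
      #({u ∈ Xu | dn pos Xu u < L}) + #({w ∈ Xd | up pos Xd w < L}) := by
    refine (card_le_card h1).trans ((card_union_le _ _).trans ?_)
    exact add_le_add card_image_le card_image_le
  have h5 : Phi L pos F (insert v X) ≤ (L - #Xu) + (L - #Xd) + Phi L pos F X := by
    unfold Phi
    have e1 : insert v X \ F = insert v (X \ F) := by
      rw [insert_sdiff_of_notMem _ hvF]
    rw [e1, sum_insert (by simp [hv])]
    have e2 : #Xu ≤ up pos (insert v X) v := by
      apply Finset.card_le_card
      intro z hz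
      simp only [hXu, mem_filter, mem_insert] at hz ⊢
      exact ⟨Or.inr hz.1, hz.2⟩
    have e3 : #Xd ≤ dn pos (insert v X) v := by
      apply Finset.card_le_card
      intro z hz
      simp only [hXd, mem_filter, mem_insert] at hz ⊢
      exact ⟨Or.inr hz.1, hz.2⟩
    have e4 : ∑ z ∈ X \ F, ((L - up pos (insert v X) z) + (L - dn pos (insert v X) z)) ≤
        ∑ z ∈ X \ F, ((L - up pos X z) + (L - dn pos X z)) := by
      apply sum_le_sum
      intro z _
      have := up_mono (pos := pos) (subset_insert v X) z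
      have := dn_mono (pos := pos) (subset_insert v X) z
      omega
    omega
  omega

/-- deletion of `v` -/
theorem del_step (hpos : Function.Injective pos) (L : ℕ) (F X : Finset V) (v : V) (hv : v ∈ X) :
    #(Adj L pos (X.erase v) \ Adj L pos X) + Phi L pos F (X.erase v) ≤ Phi L pos F X + L := by
  classical
  set Y : Finset V := X.erase v with hY
  set Yu : Finset V := {z ∈ Y | pos z < pos v} with hYu
  set Yd : Finset V := {z ∈ Y | pos v < pos z} with hYd
  have hYX : Y ⊆ X := erase_subset v X
  have hvY : v ∉ Y := by simp [hY]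
  have hXY : X = insert v Y := (insert_erase hv).symm
  -- counts
  have hup : ∀ z, up pos X z ≤ up pos Y z + if pos v < pos z then 1 else 0 := by
    intro z
    unfold up
    rw [hXY, filter_insert]
    split_ifs
    · exact card_insert_le _ _
    · omega
  have hdn : ∀ z, dn pos X z ≤ dn pos Y z + if pos z < pos v then 1 else 0 := by
    intro z
    unfold dn
    rw [hXY, filter_insert]
    split_ifs
    · exact card_insert_le _ _
    · omega
  have hbt : ∀ u w, bt pos X u w ≤ bt pos Y u w + if pos u < pos v ∧ pos v < pos w then 1 else 0 := by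
    intro u w
    unfold bt
    rw [hXY, filter_insert]
    split_ifs
    · exact card_insert_le _ _
    · omega
  have hsplit : ∀ u w, pos u < pos v → pos v < pos w →
      bt pos Y u w = dn pos Yu u + up pos Yd w := by
    intro u w hu hw
    unfold bt dn up
    rw [← card_union_of_disjoint]
    · congr 1
      ext z
      simp only [hYu, hYd, mem_filter, mem_union]
      constructor
      · rintro ⟨hz, h1, h2⟩
        rcases lt_trichotomy (pos z) (pos v) with h | h | h
        · exact Or.inl ⟨⟨hz, h⟩, h1⟩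
        · exact absurd (hpos h ▸ hz) hvY
        · exact Or.inr ⟨⟨hz, h⟩, h2⟩
      · rintro (⟨⟨hz, h1⟩, h2⟩ | ⟨⟨hz, h1⟩, h2⟩)
        · exact ⟨hz, h2, h1.trans hw⟩
        · exact ⟨hz, hu.trans h1, h2⟩
    · rw [disjoint_left]
      intro z hz hz'
      simp only [hYu, hYd, mem_filter] at hz hz'
      exact lt_asymm hz.1.2 hz'.1.2
  have hupd : ∀ z, pos v < pos z → up pos Y z = #Yu + up pos Yd z := by
    intro z hz
    unfold up
    rw [← card_union_of_disjoint]
    · congr 1
      ext y
      simp only [hYu, hYd, mem_filter, mem_union]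
      constructor
      · rintro ⟨hy, h1⟩
        rcases lt_trichotomy (pos y) (pos v) with h | h | h
        · exact Or.inl ⟨hy, h⟩
        · exact absurd (hpos h ▸ hy) hvY
        · exact Or.inr ⟨⟨hy, h⟩, h1⟩
      · rintro (⟨hy, h1⟩ | ⟨⟨hy, h1⟩, h2⟩)
        · exact ⟨hy, h1.trans hz⟩
        · exact ⟨hy, h2⟩
    · rw [disjoint_left]
      intro y hy hy'
      simp only [hYu, hYd, mem_filter] at hy hy'
      exact lt_asymm hy.2 hy'.1.2
  have hdnu : ∀ z, pos z < pos v → dn pos Y z = #Yd + dn pos Yu z := by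
    intro z hz
    unfold dn
    rw [← card_union_of_disjoint]
    · congr 1
      ext y
      simp only [hYu, hYd, mem_filter, mem_union]
      constructor
      · rintro ⟨hy, h1⟩
        rcases lt_trichotomy (pos y) (pos v) with h | h | h
        · exact Or.inr ⟨⟨hy, h⟩, h1⟩
        · exact absurd (hpos h ▸ hy) hvY
        · exact Or.inl ⟨hy, h⟩
      · rintro (⟨hy, h1⟩ | ⟨⟨hy, h1⟩, h2⟩)
        · exact ⟨hy, hz.trans h1⟩
        · exact ⟨hy, h2⟩
    · rw [disjoint_left]
      intro y hy hy'
      simp only [hYu, hYd, mem_filter] at hy hy'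
      exact lt_asymm hy.2 hy'.1.2
  -- created pairs
  have hC : #(Adj L pos Y \ Adj L pos X) ≤ #(Ico (L - #Yd) (min #Yu L)) := by
    have hmem : ∀ p ∈ Adj L pos Y \ Adj L pos X, p.1 ∈ Yu ∧ p.2 ∈ Yd ∧
        dn pos Yu p.1 + up pos Yd p.2 + 1 = L := by
      rintro ⟨u, w⟩ h
      rw [mem_sdiff, mem_Adj, mem_Adj] at h
      obtain ⟨⟨⟨hu, hw⟩, huw, hb⟩, hn⟩ := h
      have hn' : ¬ bt pos X u w < L := fun hh => hn ⟨⟨hYX hu, hYX hw⟩, huw, hh⟩
      have hb2 := hbt u w
      have hst : pos u < pos v ∧ pos v < pos w := by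
        by_contra hcon
        rw [if_neg hcon] at hb2
        omega
      rw [if_pos hst] at hb2
      have hb3 := hsplit u w hst.1 hst.2
      refine ⟨mem_filter.2 ⟨hu, hst.1⟩, mem_filter.2 ⟨hw, hst.2⟩, ?_⟩
      show dn pos Yu u + up pos Yd w + 1 = L
      omega
    apply Finset.card_le_card_of_injOn (fun p => dn pos Yu p.1)
    · intro p hp
      obtain ⟨h1, h2, h3⟩ := hmem p (mem_coe.1 hp)
      have h4 := dn_lt_card (pos := pos) Yu h1
      have h5 := up_lt_card (pos := pos) Yd h2
      rw [mem_coe, mem_Ico]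
      show L - #Yd ≤ dn pos Yu p.1 ∧ dn pos Yu p.1 < min #Yu L
      constructor
      · omega
      · rw [lt_min_iff]; omega
    · rintro ⟨u, w⟩ hp ⟨u', w'⟩ hp' h
      obtain ⟨h1, h2, h3⟩ := hmem _ (mem_coe.1 hp)
      obtain ⟨h1', h2', h3'⟩ := hmem _ (mem_coe.1 hp')
      simp only at h h1 h2 h3 h1' h2' h3'
      have e1 : u = u' := dn_inj hpos Yu h1 h1' h
      subst e1
      have e2 : up pos Yd w = up pos Yd w' := by omega
      have e3 : w = w' := up_inj hpos Yd h2 h2' e2
      rw [e3]
  rw [Nat.card_Ico] at hC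
  -- potential
  have hP : Phi L pos F Y ≤ Phi L pos F X + #({z ∈ Yd | up pos Y z < L}) +
      #({z ∈ Yu | dn pos Y z < L}) := by
    have e1 : Phi L pos F Y ≤ ∑ z ∈ Y \ F, (((L - up pos X z) + (L - dn pos X z)) +
        ((if pos v < pos z ∧ up pos Y z < L then 1 else 0) +
        (if pos z < pos v ∧ dn pos Y z < L then 1 else 0))) := by
      unfold Phi
      apply sum_le_sum
      intro z _
      have a1 := hup z
      have a2 := hdn z
      split_ifs at a1 a2 ⊢ <;> omega
    rw [sum_add_distrib] at e1
    have eB : ∑ z ∈ Y \ F, ((if pos v < pos z ∧ up pos Y z < L then 1 else 0) +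
        (if pos z < pos v ∧ dn pos Y z < L then 1 else 0)) =
        ∑ z ∈ Y \ F, (if pos v < pos z ∧ up pos Y z < L then 1 else 0) +
        ∑ z ∈ Y \ F, (if pos z < pos v ∧ dn pos Y z < L then 1 else 0) := sum_add_distrib
    have e2 : ∑ z ∈ Y \ F, ((L - up pos X z) + (L - dn pos X z)) ≤ Phi L pos F X := by
      unfold Phi
      apply sum_le_sum_of_subset
      exact sdiff_subset_sdiff hYX (subset_refl _)
    have e3 : ∑ z ∈ Y \ F, (if pos v < pos z ∧ up pos Y z < L then 1 else 0) ≤
        #({z ∈ Yd | up pos Y z < L}) := by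
      rw [← card_filter]
      apply card_le_card
      intro z hz
      simp only [hYd, mem_filter, mem_sdiff] at hz ⊢
      exact ⟨⟨hz.1.1, hz.2.1⟩, hz.2.2⟩
    have e4 : ∑ z ∈ Y \ F, (if pos z < pos v ∧ dn pos Y z < L then 1 else 0) ≤
        #({z ∈ Yu | dn pos Y z < L}) := by
      rw [← card_filter]
      apply card_le_card
      intro z hz
      simp only [hYu, mem_filter, mem_sdiff] at hz ⊢
      exact ⟨⟨hz.1.1, hz.2.1⟩, hz.2.2⟩
    omega
  have hD1 : #({z ∈ Yd | up pos Y z < L}) ≤ min #Yd (L - #Yu) := by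
    have := card_up hpos Yd (fun z => up pos Y z < L) (range (min #Yd (L - #Yu))) (by
      intro z hz h
      have h1 := hupd z (mem_filter.1 hz).2
      have h2 := up_lt_card (pos := pos) Yd hz
      rw [mem_range, lt_min_iff]
      omega)
    rwa [card_range] at this
  have hD2 : #({z ∈ Yu | dn pos Y z < L}) ≤ min #Yu (L - #Yd) := by
    have := card_dn hpos Yu (fun z => dn pos Y z < L) (range (min #Yu (L - #Yd))) (by
      intro z hz h
      have h1 := hdnu z (mem_filter.1 hz).2
      have h2 := dn_lt_card (pos := pos) Yu hz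
      rw [mem_range, lt_min_iff]
      omega)
    rwa [card_range] at this
  omega

/-- far pairs in a set of `2L+1` elements -/
theorem far_le (hpos : Function.Injective pos) (L : ℕ) (F X : Finset V) (hX : #X = 2 * L + 1) :
    #({p ∈ X ×ˢ X | pos p.1 < pos p.2 ∧ L ≤ bt pos X p.1 p.2 ∧ ¬ (p.1 ∈ F ∧ p.2 ∈ F)}) ≤
      Phi L pos F X := by
  classical
  have hsum : ∀ u ∈ X, ∀ w ∈ X, pos u < pos w →
      up pos X u + 1 + bt pos X u w + 1 + dn pos X w = #X := by
    intro u hu w hw huw
    have e1 : X = {z ∈ X | pos z < pos u} ∪ ({u} ∪ ({z ∈ X | pos u < pos z ∧ pos z < pos w} ∪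
        ({w} ∪ {z ∈ X | pos w < pos z}))) := by
      ext z
      simp only [mem_union, mem_filter, mem_singleton]
      constructor
      · intro hz
        rcases lt_trichotomy (pos z) (pos u) with h | h | h
        · exact Or.inl ⟨hz, h⟩
        · exact Or.inr (Or.inl (hpos h))
        · rcases lt_trichotomy (pos z) (pos w) with h' | h' | h'
          · exact Or.inr (Or.inr (Or.inl ⟨hz, h, h'⟩))
          · exact Or.inr (Or.inr (Or.inr (Or.inl (hpos h'))))
          · exact Or.inr (Or.inr (Or.inr (Or.inr ⟨hz, h'⟩)))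
      · rintro (h | h | h | h | h)
        · exact h.1
        · rw [h]; exact hu
        · exact h.1
        · rw [h]; exact hw
        · exact h.1
    conv_rhs => rw [e1]
    rw [card_union_of_disjoint, card_union_of_disjoint, card_union_of_disjoint,
      card_union_of_disjoint, card_singleton, card_singleton]
    · unfold up bt dn; ring
    · rw [disjoint_left]; intro z hz hz'
      simp only [mem_singleton, mem_filter] at hz hz'
      rw [hz] at hz'; exact lt_irrefl _ hz'.2
    · rw [disjoint_left]; intro z hz hz'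
      simp only [mem_union, mem_singleton, mem_filter] at hz hz'
      rcases hz' with h | h
      · rw [h] at hz; exact lt_irrefl _ hz.2.2
      · exact lt_asymm hz.2.2 h.2
    · rw [disjoint_left]; intro z hz hz'
      simp only [mem_union, mem_singleton, mem_filter] at hz hz'
      rcases hz' with h | h | h
      · rw [hz] at h; exact lt_irrefl _ h.2.1
      · rw [hz] at h; rw [h] at huw; exact lt_irrefl _ huw
      · rw [hz] at h; exact lt_asymm huw h.2
    · rw [disjoint_left]; intro z hz hz'
      simp only [mem_union, mem_singleton, mem_filter] at hz hz'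
      rcases hz' with h | h | h | h
      · rw [h] at hz; exact lt_irrefl _ hz.2
      · exact lt_asymm hz.2 h.2.1
      · rw [h] at hz; exact lt_asymm hz.2 huw
      · exact lt_asymm (hz.2.trans huw) h.2
  have h1 : ({p ∈ X ×ˢ X | pos p.1 < pos p.2 ∧ L ≤ bt pos X p.1 p.2 ∧ ¬ (p.1 ∈ F ∧ p.2 ∈ F)}) ⊆
      (X \ F).biUnion (fun u => ({w ∈ X | pos u < pos w ∧ L ≤ bt pos X u w}).image
        (fun w => (u, w))) ∪
      (X \ F).biUnion (fun w => ({u ∈ X | pos u < pos w ∧ L ≤ bt pos X u w}).image
        (fun u => (u, w))) := by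
    rintro ⟨u, w⟩ h
    simp only [mem_filter, mem_product] at h
    obtain ⟨⟨hu, hw⟩, huw, hb, hF⟩ := h
    rw [mem_union, mem_biUnion, mem_biUnion]
    by_cases huF : u ∈ F
    · right
      have hwF : w ∉ F := fun h => hF ⟨huF, h⟩
      exact ⟨w, mem_sdiff.2 ⟨hw, hwF⟩, mem_image.2 ⟨u, mem_filter.2 ⟨hu, huw, hb⟩, rfl⟩⟩
    · left
      exact ⟨u, mem_sdiff.2 ⟨hu, huF⟩, mem_image.2 ⟨w, mem_filter.2 ⟨hw, huw, hb⟩, rfl⟩⟩
  have h2 : ∀ u ∈ X, #({w ∈ X | pos u < pos w ∧ L ≤ bt pos X u w}) ≤ L - up pos X u := by
    intro u hu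
    have := card_dn hpos X (fun w => pos u < pos w ∧ L ≤ bt pos X u w) (range (L - up pos X u)) (by
      intro w hw h
      have := hsum u hu w hw h.1
      rw [mem_range]
      omega)
    rwa [card_range] at this
  have h3 : ∀ w ∈ X, #({u ∈ X | pos u < pos w ∧ L ≤ bt pos X u w}) ≤ L - dn pos X w := by
    intro w hw
    have := card_up hpos X (fun u => pos u < pos w ∧ L ≤ bt pos X u w) (range (L - dn pos X w)) (by
      intro u hu h
      have := hsum u hu w hw h.1
      rw [mem_range]
      omega)
    rwa [card_range] at this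
  refine (card_le_card h1).trans ((card_union_le _ _).trans ?_)
  unfold Phi
  rw [sum_add_distrib]
  apply add_le_add
  · refine card_biUnion_le.trans (sum_le_sum fun u hu => ?_)
    exact card_image_le.trans (h2 u (mem_sdiff.1 hu).1)
  · refine card_biUnion_le.trans (sum_le_sum fun u hu => ?_)
    exact card_image_le.trans (h3 u (mem_sdiff.1 hu).1)

end Pool.Agent.Helper982_BV
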