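import Pool.Agent.Helper982_BV.Defs
import Pool.Agent.Helper982_BV.Comb

/-! The upper bound. -/

set_option autoImplicit false

open Finset

namespace Pool.Agent.Helper982_BV

section rank

variable {n : ℕ}

/-- lexicographic comparison of `(f w, w)` and `(f v, v)` -/
def lx (f : Fin n → ℝ) (w v : Fin n) : Prop := f w < f v ∨ (f w = f v ∧ w < v)

theorem lx_irrefl (f : Fin n → ℝ) (v : Fin n) : ¬ lx f v v := by
  rintro (h | h)
  · exact lt_irrefl _ h
  · exact lt_irrefl _ h.2

theorem lx_trans {f : Fin n → ℝ} {a b c : Fin n} (h1 : lx f a b) (h2 : lx f b c) : lx f a c := by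
  rcases h1 with h1 | h1 <;> rcases h2 with h2 | h2
  · exact Or.inl (h1.trans h2)
  · exact Or.inl (h2.1 ▸ h1)
  · exact Or.inl (h1.1 ▸ h2)
  · exact Or.inr ⟨h1.1.trans h2.1, h1.2.trans h2.2⟩

theorem lx_tri (f : Fin n → ℝ) {a b : Fin n} (h : a ≠ b) : lx f a b ∨ lx f b a := by
  rcases lt_trichotomy (f a) (f b) with h1 | h1 | h1
  · exact Or.inl (Or.inl h1)
  · rcases lt_or_gt_of_ne h with h2 | h2
    · exact Or.inl (Or.inr ⟨h1, h2⟩)
    · exact Or.inr (Or.inr ⟨h1.symm, h2⟩)
  · exact Or.inr (Or.inl h1)

open Classical in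
/-- rank of `v` -/
noncomputable def rk (f : Fin n → ℝ) (v : Fin n) : ℕ := #({w | lx f w v} : Finset (Fin n))

theorem rk_lt {f : Fin n → ℝ} {a b : Fin n} (h : lx f a b) : rk f a < rk f b := by
  classical
  apply card_lt_card
  rw [ssubset_iff_of_subset]
  · exact ⟨a, by simpa using h, by simpa using lx_irrefl f a⟩
  · intro z hz
    simp only [mem_filter, mem_univ, true_and] at hz ⊢
    exact lx_trans hz h

theorem rk_le {f : Fin n → ℝ} {a b : Fin n} (h : rk f a < rk f b) : lx f a b := by
  by_cases hab : a = b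
  · rw [hab] at h; exact absurd h (lt_irrefl _)
  · rcases lx_tri f hab with h1 | h1
    · exact h1
    · exact absurd (rk_lt h1) (lt_asymm h)

theorem rk_inj (f : Fin n → ℝ) : Function.Injective (rk f) := by
  intro a b h
  by_contra hab
  rcases lx_tri f hab with h1 | h1
  · exact absurd h (rk_lt h1).ne
  · exact absurd h (rk_lt h1).ne'

variable (a b : Fin n → ℝ)

/-- time of the start of `v` -/
noncomputable def sT (v : Fin n) : ℕ := rk a v + #({w | b w < a v} : Finset (Fin n))

/-- time of the end of `v` -/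
noncomputable def eT (v : Fin n) : ℕ := #({w | a w ≤ b v} : Finset (Fin n)) + rk b v

theorem sT_lt {v w : Fin n} (h : lx a v w) : sT a b v < sT a b w := by
  classical
  unfold sT
  have h1 := rk_lt h
  have h2 : #({z | b z < a v} : Finset (Fin n)) ≤ #({z | b z < a w} : Finset (Fin n)) := by
    apply card_le_card
    intro z hz
    simp only [mem_filter, mem_univ, true_and] at hz ⊢
    rcases h with h | h
    · exact hz.trans h
    · rw [← h.1]; exact hz
  omega

theorem eT_lt {v w : Fin n} (h : lx b v w) : eT a b v < eT a b w := by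
  classical
  unfold eT
  have h1 := rk_lt h
  have h2 : #({z | a z ≤ b v} : Finset (Fin n)) ≤ #({z | a z ≤ b w} : Finset (Fin n)) := by
    apply card_le_card
    intro z hz
    simp only [mem_filter, mem_univ, true_and] at hz ⊢
    rcases h with h | h
    · exact hz.trans h.le
    · rw [← h.1]; exact hz
  omega

theorem sT_inj : Function.Injective (sT a b) := by
  intro v w h
  by_contra hvw
  rcases lx_tri a hvw with h1 | h1
  · exact absurd h (sT_lt a b h1).ne
  · exact absurd h (sT_lt a b h1).ne'

theorem eT_inj : Function.Injective (eT a b) := by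
  intro v w h
  by_contra hvw
  rcases lx_tri b hvw with h1 | h1
  · exact absurd h (eT_lt a b h1).ne
  · exact absurd h (eT_lt a b h1).ne'

theorem sT_lt_eT {v w : Fin n} (h : a v ≤ b w) : sT a b v < eT a b w := by
  classical
  unfold sT eT
  have h1 : rk a v < #({z | a z ≤ b w} : Finset (Fin n)) := by
    apply card_lt_card
    rw [ssubset_iff_of_subset]
    · exact ⟨v, by simpa using h, by simpa using lx_irrefl a v⟩
    · intro z hz
      simp only [mem_filter, mem_univ, true_and] at hz ⊢
      rcases hz with hz | hz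
      · exact hz.le.trans h
      · exact hz.1.le.trans h
  have h2 : #({z | b z < a v} : Finset (Fin n)) ≤ rk b w := by
    apply card_le_card
    intro z hz
    simp only [mem_filter, mem_univ, true_and] at hz ⊢
    exact Or.inl (lt_of_lt_of_le hz h)
  omega

theorem eT_lt_sT {v w : Fin n} (h : b w < a v) : eT a b w < sT a b v := by
  classical
  unfold sT eT
  have h1 : #({z | a z ≤ b w} : Finset (Fin n)) ≤ rk a v := by
    apply card_le_card
    intro z hz
    simp only [mem_filter, mem_univ, true_and] at hz ⊢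
    exact Or.inl (lt_of_le_of_lt hz h)
  have h2 : rk b w < #({z | b z < a v} : Finset (Fin n)) := by
    apply card_lt_card
    rw [ssubset_iff_of_subset]
    · exact ⟨w, by simpa using h, by simpa using lx_irrefl b w⟩
    · intro z hz
      simp only [mem_filter, mem_univ, true_and] at hz ⊢
      rcases hz with hz | hz
      · exact hz.trans h
      · rw [hz.1]; exact h
  omega

theorem sT_ne_eT (v w : Fin n) : sT a b v ≠ eT a b w := by
  rcases le_or_gt (a v) (b w) with h | h
  · exact (sT_lt_eT a b h).ne
  · exact (eT_lt_sT a b h).ne'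

/-- time of the coordinate `x` -/
noncomputable def xT (x : ℝ) : ℕ :=
  #({w | a w < x} : Finset (Fin n)) + #({w | b w < x} : Finset (Fin n))

theorem mem_St_xT {x : ℝ} (hx : ∀ w, a w ≠ x ∧ b w ≠ x) (v : Fin n) :
    v ∈ St (sT a b) (eT a b) (xT a b x) ↔ a v < x ∧ x < b v := by
  classical
  rw [mem_St]
  have h1 : sT a b v < xT a b x ↔ a v < x := by
    constructor
    · intro h
      by_contra hcon
      have hxa : x ≤ a v := not_lt.1 hcon
      have e1 : #({w | a w < x} : Finset (Fin n)) ≤ rk a v := by
        apply card_le_card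
        intro z hz
        simp only [mem_filter, mem_univ, true_and] at hz ⊢
        exact Or.inl (lt_of_lt_of_le hz hxa)
      have e2 : #({w | b w < x} : Finset (Fin n)) ≤ #({w | b w < a v} : Finset (Fin n)) := by
        apply card_le_card
        intro z hz
        simp only [mem_filter, mem_univ, true_and] at hz ⊢
        exact lt_of_lt_of_le hz hxa
      unfold sT xT at h
      omega
    · intro h
      have e1 : rk a v < #({w | a w < x} : Finset (Fin n)) := by
        apply card_lt_card
        rw [ssubset_iff_of_subset]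
        · exact ⟨v, by simpa using h, by simpa using lx_irrefl a v⟩
        · intro z hz
          simp only [mem_filter, mem_univ, true_and] at hz ⊢
          rcases hz with hz | hz
          · exact hz.trans h
          · rw [hz.1]; exact h
      have e2 : #({w | b w < a v} : Finset (Fin n)) ≤ #({w | b w < x} : Finset (Fin n)) := by
        apply card_le_card
        intro z hz
        simp only [mem_filter, mem_univ, true_and] at hz ⊢
        exact hz.trans h
      unfold sT xT
      omega
  have h2 : xT a b x ≤ eT a b v ↔ x < b v := by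
    constructor
    · intro h
      by_contra hcon
      have hxb : b v < x := lt_of_le_of_ne (not_lt.1 hcon) (hx v).2
      have e1 : #({w | a w ≤ b v} : Finset (Fin n)) ≤ #({w | a w < x} : Finset (Fin n)) := by
        apply card_le_card
        intro z hz
        simp only [mem_filter, mem_univ, true_and] at hz ⊢
        exact lt_of_le_of_lt hz hxb
      have e2 : rk b v < #({w | b w < x} : Finset (Fin n)) := by
        apply card_lt_card
        rw [ssubset_iff_of_subset]
        · exact ⟨v, by simpa using hxb, by simpa using lx_irrefl b v⟩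
        · intro z hz
          simp only [mem_filter, mem_univ, true_and] at hz ⊢
          rcases hz with hz | hz
          · exact hz.trans hxb
          · rw [hz.1]; exact hxb
      unfold eT xT at h
      omega
    · intro h
      have e1 : #({w | a w < x} : Finset (Fin n)) ≤ #({w | a w ≤ b v} : Finset (Fin n)) := by
        apply card_le_card
        intro z hz
        simp only [mem_filter, mem_univ, true_and] at hz ⊢
        exact (hz.trans h).le
      have e2 : #({w | b w < x} : Finset (Fin n)) ≤ rk b v := by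
        apply card_le_card
        intro z hz
        simp only [mem_filter, mem_univ, true_and] at hz ⊢
        exact Or.inl (hz.trans h)
      unfold eT xT
      omega
  rw [h1, h2]

end rank

theorem upper (k n : ℕ) (hn : 4 * k + 4 ≤ n) (G : SimpleGraph (Fin n))
    (hG : IsBarVisibilityGraph k G) :
    G.edgeSet.ncard + (k + 1) * (4 * (k + 1) + 2) ≤ 3 * (k + 1) * n := by
  classical
  obtain ⟨B, hbar, hdis, hadj⟩ := hG
  choose a b c hab hB using hbar
  -- positions
  set pos : Fin n → ℤ := fun v => (rk c v : ℤ) with hpos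
  have hposi : Function.Injective pos := fun v w h => rk_inj c (by simpa [hpos] using h)
  set E : Finset (Fin n × Fin n) := {p | G.Adj p.1 p.2 ∧ pos p.1 < pos p.2} with hEd
  have hE : ∀ p ∈ E, ∃ t, p ∈ Adj (k + 1) pos (St (sT a b) (eT a b) t) := by
    rintro ⟨u, v⟩ hp
    rw [hEd, mem_filter] at hp
    obtain ⟨-, huv, hlt⟩ := hp
    simp only at huv hlt
    have hne : u ≠ v := G.ne_of_adj huv
    have hlx : lx c u v := rk_le (by simpa [hpos] using hlt)
    obtain ⟨x₁, x₂, y₁, y₂, hx, hy, hor, hcard⟩ := (hadj u v hne).1 huv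
    -- membership of points in bars
    have hmem : ∀ w x y, (x, y) ∈ B w ↔ (a w ≤ x ∧ x ≤ b w) ∧ y = c w := by
      intro w x y
      rw [hB w]
      simp [Set.mem_prod, Set.mem_Icc]
    have key : ∀ w y, Set.Icc x₁ x₂ ×ˢ {y} ⊆ B w → c w = y ∧ a w ≤ x₁ ∧ x₂ ≤ b w := by
      intro w y hsub
      have h1 : (x₁, y) ∈ B w := hsub ⟨⟨le_refl _, hx.le⟩, rfl⟩
      have h2 : (x₂, y) ∈ B w := hsub ⟨⟨hx.le, le_refl _⟩, rfl⟩
      rw [hmem] at h1 h2
      exact ⟨h1.2.symm, h1.1.1, h2.1.2⟩
    have hyy : c u = y₁ ∧ c v = y₂ ∧ (a u ≤ x₁ ∧ x₂ ≤ b u) ∧ (a v ≤ x₁ ∧ x₂ ≤ b v) := by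
      rcases hor with ⟨h1, h2⟩ | ⟨h1, h2⟩
      · have k1 := key _ _ h1
        have k2 := key _ _ h2
        exact ⟨k1.1, k2.1, k1.2, k2.2⟩
      · exfalso
        have k1 := key _ _ h1
        have k2 := key _ _ h2
        rcases hlx with h | h
        · rw [k1.1, k2.1] at h; exact lt_asymm h hy
        · rw [k1.1, k2.1] at h; exact hy.ne h.1.symm
    -- a generic point
    obtain ⟨x, hxI, hxg⟩ : ∃ x ∈ Set.Ioo x₁ x₂, ∀ w, a w ≠ x ∧ b w ≠ x := by
      have hinf : (Set.Ioo x₁ x₂).Infinite := Set.Ioo_infinite hx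
      have hfin : (Set.range a ∪ Set.range b).Finite :=
        (Set.finite_range a).union (Set.finite_range b)
      obtain ⟨x, hx1, hx2⟩ := (hinf.sdiff hfin).nonempty
      refine ⟨x, hx1, fun w => ⟨?_, ?_⟩⟩
      · intro h; exact hx2 (Or.inl ⟨w, h⟩)
      · intro h; exact hx2 (Or.inr ⟨w, h⟩)
    refine ⟨xT a b x, ?_⟩
    rw [mem_Adj, mem_St_xT a b hxg, mem_St_xT a b hxg]
    refine ⟨⟨⟨by linarith [hyy.2.2.1.1, hxI.1], by linarith [hyy.2.2.1.2, hxI.2]⟩,
      ⟨by linarith [hyy.2.2.2.1, hxI.1], by linarith [hyy.2.2.2.2, hxI.2]⟩⟩, hlt, ?_⟩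
    rw [Nat.lt_succ_iff]
    refine le_trans ?_ hcard
    unfold bt
    rw [← Set.ncard_coe_finset]
    apply Set.ncard_le_ncard _ (Set.toFinite _)
    intro w hw
    rw [mem_coe, mem_filter, mem_St_xT a b hxg] at hw
    obtain ⟨⟨hw1, hw2⟩, hw3, hw4⟩ := hw
    have hwu : lx c u w := rk_le (by simpa [hpos] using hw3)
    have hwv : lx c w v := rk_le (by simpa [hpos] using hw4)
    have hnu : w ≠ u := fun h => by rw [h] at hw3; exact lt_irrefl _ hw3
    have hnv : w ≠ v := fun h => by rw [h] at hw4; exact lt_irrefl _ hw4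
    refine ⟨hnu, hnv, ⟨(x, c w), ?_, ?_⟩⟩
    · rw [hmem]; exact ⟨⟨hw1.le, hw2.le⟩, rfl⟩
    · refine ⟨⟨hxI.1.le, hxI.2.le⟩, ?_, ?_⟩
      · show y₁ ≤ c w
        rw [← hyy.1]
        rcases hwu with h | h
        · exact h.le
        · exact h.1.le
      · show c w ≤ y₂
        rw [← hyy.2.1]
        rcases hwv with h | h
        · exact h.le
        · exact h.1.le
  have hmain := comb (k + 1) (by omega) pos hposi (sT a b) (eT a b)
    (fun v => sT_lt_eT a b (hab v).le) (sT_inj a b) (eT_inj a b) (sT_ne_eT a b)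
    (by rw [Fintype.card_fin]; omega) E hE
  rw [Fintype.card_fin] at hmain
  have hcard : G.edgeSet.ncard ≤ #E := by
    have hsub : G.edgeSet ⊆ ((E.image (fun p => s(p.1, p.2)) : Finset (Sym2 (Fin n))) :
        Set (Sym2 (Fin n))) := by
      intro z hz
      induction z using Sym2.ind with
      | _ u v =>
        rw [SimpleGraph.mem_edgeSet] at hz
        rw [mem_coe, mem_image]
        have hne : pos u ≠ pos v := fun h => G.ne_of_adj hz (hposi h)
        rcases lt_or_gt_of_ne hne with h | h
        · exact ⟨(u, v), by rw [hEd, mem_filter]; exact ⟨mem_univ _, hz, h⟩, rfl⟩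
        · exact ⟨(v, u), by rw [hEd, mem_filter]; exact ⟨mem_univ _, hz.symm, h⟩, Sym2.eq_swap⟩
    have h1 := Set.ncard_le_ncard hsub (Finset.finite_toSet _)
    rw [Set.ncard_coe_finset] at h1
    exact h1.trans card_image_le
  omega

end Pool.Agent.Helper982_BV
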